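import Mathlib
import Pool.Agent.H6.ApTestDefs
import Pool.Agent.H6.ApTestA

set_option autoImplicit false

/-!
MP_8aa41f_lc: two-stage group testing with arithmetic-progression tests.
-/

namespace Pool.Agent.Results.MP_8aa41f_lc.NoLinearCost

open Pool.Agent.H6.ApTest

/-- For every `C`, `C'` and every fixed `k ≥ 1`, for all large `n` no successful two-stage procedure
has arithmetic-progression Stage 1 tests, at most `C k` Stage 2 queries and at most `C' k log n`
Stage 1 tests. -/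
theorem result (C C' : ℝ) (k : ℕ) (hk : 1 ≤ k) : ∃ N : ℕ, ∀ n : ℕ, N ≤ n →
    ¬ ∃ (m : ℕ) (T : Fin m → Finset ℕ) (Q : (Fin m → Prop) → Finset ℕ),
      (∀ i, IsAP n (T i)) ∧ (m : ℝ) ≤ C' * k * Real.log n ∧ Succeeds n k m C T Q := by
  set c : ℝ := |C'| * k with hc
  have hc0 : 0 ≤ c := by positivity
  set A0 : ℝ := Real.log (|C| * k + 1) with hA0
  have hCk0 : 0 ≤ |C| * k := by positivity
  have hA00 : 0 ≤ A0 := Real.log_nonneg (by linarith)
  set t0 : ℝ := (c + 1) * (A0 + 49) with ht0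
  have ht0pos : 49 * (c + 1) ≤ t0 := by rw [ht0]; nlinarith
  obtain ⟨N, hN⟩ := exists_nat_ge (Real.exp (t0 ^ 4 / (c + 1)))
  refine ⟨N, fun n hn => ?_⟩
  rintro ⟨m, T, Q, hT, hm, hS⟩
  have hn' : Real.exp (t0 ^ 4 / (c + 1)) ≤ n := hN.trans (by exact_mod_cast hn)
  have hnpos : (0 : ℝ) < n := lt_of_lt_of_le (Real.exp_pos _) hn'
  set L := Real.log n with hL
  have hLexp : Real.exp L = n := Real.exp_log hnpos
  have hLge : t0 ^ 4 / (c + 1) ≤ L := by
    rw [hL, Real.le_log_iff_exp_le hnpos]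
    exact hn'
  have hc1 : 0 < c + 1 := by linarith
  set y := (c + 1) * L with hy
  have hyge : t0 ^ 4 ≤ y := by
    rw [div_le_iff₀ hc1] at hLge
    linarith
  have ht01 : 1 ≤ t0 := by nlinarith
  have hy1 : 1 ≤ y := by
    have : (1 : ℝ) ≤ t0 ^ 4 := one_le_pow₀ ht01
    linarith
  set t := Real.sqrt (Real.sqrt y) with ht
  have hsq1 : Real.sqrt y * Real.sqrt y = y := Real.mul_self_sqrt (by linarith)
  have hsq2 : t * t = Real.sqrt y := Real.mul_self_sqrt (Real.sqrt_nonneg _)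
  have ht4 : t ^ 4 = y := by
    calc t ^ 4 = (t * t) * (t * t) := by ring
      _ = y := by rw [hsq2, hsq1]
  have ht00 : 0 ≤ t := Real.sqrt_nonneg _
  have htt0 : t0 ≤ t := by
    rw [← ht4] at hyge
    exact le_of_pow_le_pow_left₀ (by norm_num) ht00 hyge
  have ht1 : 1 ≤ t := ht01.trans htt0
  have hLpos : 49 ^ 4 * (c + 1) ≤ L := by
    have h1 : (49 * (c + 1)) ^ 4 ≤ t0 ^ 4 := pow_le_pow_left₀ (by positivity) ht0pos 4
    have h2 : (49 * (c + 1)) ^ 4 ≤ (c + 1) * L := h1.trans hyge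
    have h3 : (49 * (c + 1)) ^ 4 = 49 ^ 4 * (c + 1) * ((c + 1) ^ 2) * (c + 1) := by ring
    have h4 : (1 : ℝ) ≤ (c + 1) ^ 2 := one_le_pow₀ (by linarith)
    have h5 : 49 ^ 4 * (c + 1) ≤ 49 ^ 4 * (c + 1) * ((c + 1) ^ 2) :=
      le_mul_of_one_le_right (by positivity) h4
    rw [h3, mul_comm (c + 1) L] at h2
    exact h5.trans (le_of_mul_le_mul_right h2 hc1)
  have hL1 : 1 ≤ L := by linarith
  have hmL : (m : ℝ) ≤ c * L := by
    refine hm.trans ?_
    rw [hc]
    have h1 : C' ≤ |C'| := le_abs_self C'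
    have h2 : 0 ≤ (k : ℝ) * L := by positivity
    have h3 := mul_le_mul_of_nonneg_right h1 h2
    linarith
  have hm1y : (m : ℝ) + 1 ≤ y := by rw [hy, add_mul, one_mul]; linarith
  have hmn : m ≤ n := by
    have h1 : (m : ℝ) ≤ n := by
      rw [← hLexp]
      have h2 := Real.quadratic_le_exp_of_nonneg (x := L) (by linarith)
      have h3 : c * L ≤ L * L := mul_le_mul_of_nonneg_right (by linarith) (by linarith)
      have h4 : c ≤ L / 2 := by linarith
      have h5 : c * L ≤ L / 2 * L := mul_le_mul_of_nonneg_right h4 (by linarith)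
      have h6 : L / 2 * L = L ^ 2 / 2 := by ring
      linarith
    exact_mod_cast h1
  set s := Nat.sqrt m + 1 with hs
  have hms : m ≤ s * s := (Nat.lt_succ_sqrt m).le
  have hcount := main_count n k m s C T Q hk (by omega) hms hmn hT hS
  have hssq : (s : ℝ) ≤ t ^ 2 + 1 := by
    rw [hs]
    push_cast
    have h1 : (Nat.sqrt m : ℝ) ≤ Real.sqrt m := Real.nat_sqrt_le_real_sqrt
    have h2 : Real.sqrt m ≤ Real.sqrt y := Real.sqrt_le_sqrt (by linarith)
    have h3 : t ^ 2 = Real.sqrt y := by rw [sq, hsq2]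
    linarith
  have hlogm : Real.log ((m : ℝ) + 1) ≤ 4 * t := by
    have h1 : Real.log ((m : ℝ) + 1) ≤ Real.log y := Real.log_le_log (by positivity) hm1y
    have h2 : Real.log y = 4 * Real.log t := by rw [← ht4, Real.log_pow]; norm_num
    have h3 : Real.log t ≤ t := (Real.log_le_sub_one_of_pos (by linarith)).trans (by linarith)
    linarith
  have hlogm0 : 0 ≤ Real.log ((m : ℝ) + 1) := Real.log_nonneg (by
    have : (0 : ℝ) ≤ m := by positivity
    linarith)
  have hfin : L - 1 ≤ A0 + (4 * t ^ 2 + 8) * (4 * t) := by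
    have hpos : (0 : ℝ) < (|C| * k + 1) * ((m : ℝ) + 1) ^ (4 * s + 4) := by positivity
    have h1 : (n : ℝ) / 2 ≤ (|C| * k + 1) * ((m : ℝ) + 1) ^ (4 * s + 4) := by
      refine hcount.trans (mul_le_mul_of_nonneg_right ?_ (by positivity))
      have h0 : C ≤ |C| := le_abs_self C
      have h3 := mul_le_mul_of_nonneg_right h0 (Nat.cast_nonneg k : (0 : ℝ) ≤ k)
      linarith
    have h2 := Real.log_le_log (by positivity) h1
    rw [Real.log_div hnpos.ne' (by norm_num), Real.log_mul (by positivity) (by positivity),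
      Real.log_pow] at h2
    push_cast at h2
    have h3 : Real.log 2 ≤ 1 := by
      have := Real.log_two_lt_d9
      linarith
    have h4 : (4 * (s : ℝ) + 4) * Real.log ((m : ℝ) + 1) ≤ (4 * t ^ 2 + 8) * (4 * t) :=
      mul_le_mul (by linarith) hlogm hlogm0 (by positivity)
    linarith
  have hcontra : A0 + (4 * t ^ 2 + 8) * (4 * t) < L - 1 := by
    have h1 : (A0 + 49) * t ^ 3 ≤ L := by
      have h2 : (c + 1) * ((A0 + 49) * t ^ 3) ≤ (c + 1) * L := by
        rw [← hy, ← ht4]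
        calc (c + 1) * ((A0 + 49) * t ^ 3) = t0 * t ^ 3 := by rw [ht0]; ring
          _ ≤ t * t ^ 3 := mul_le_mul_of_nonneg_right htt0 (by positivity)
          _ = t ^ 4 := by ring
      exact le_of_mul_le_mul_left h2 hc1
    have h3 : 1 ≤ t ^ 2 := one_le_pow₀ ht1
    have h4 : t ≤ t ^ 3 := by
      calc t = t * 1 := by ring
        _ ≤ t * t ^ 2 := mul_le_mul_of_nonneg_left h3 ht00
        _ = t ^ 3 := by ring
    have h6 : 49 ≤ t := by
      have : (49 : ℝ) ≤ 49 * (c + 1) := by linarith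
      linarith
    have h5 : 49 ≤ t ^ 3 := h6.trans h4
    have h8 : A0 * 1 ≤ A0 * t ^ 3 := mul_le_mul_of_nonneg_left (by linarith) hA00
    have h9 : (4 * t ^ 2 + 8) * (4 * t) = 16 * t ^ 3 + 32 * t := by ring
    have h10 : (A0 + 49) * t ^ 3 = A0 * t ^ 3 + 49 * t ^ 3 := by ring
    rw [h9]
    rw [h10] at h1
    linarith
  linarith

end Pool.Agent.Results.MP_8aa41f_lc.NoLinearCost
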